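import Pool.Agent.R241.DL7

set_option autoImplicit false

/-!
# Layers by the letter `x₀`: the coefficients of the part with four letters `x₀` in odd weight

They are antisymmetric in the five exponents.
-/

namespace Pool.Agent.U691.LL

open Pool.Agent.H777R4.DM Pool.Agent.R241.DL

variable {ψ : A} {N : ℕ}

/-- the coefficient of `x₁^a x₀ x₁^b x₀ x₁^c x₀ x₁^d x₀ x₁^e` -/
noncomputable def cf (ψ : A) (a b c d e : ℕ) : ℚ := co ψ (blk [a, b, c, d, e])

theorem cf_rot (h : IsDM ψ) (hN : LenHom ψ N) (hm : ∀ u, co ψ u ≠ 0 → 4 ≤ u.count 0)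
    (a b c d e : ℕ) : cf ψ b c d e a = cf ψ a b c d e :=
  blk_rot h hN hm (by norm_num) 1 [a, b, c, d, e] rfl

theorem cf_rev (h : IsDM ψ) (hN : LenHom ψ N) (hodd : Odd N)
    (hm : ∀ u, co ψ u ≠ 0 → 4 ≤ u.count 0) (a b c d e : ℕ) :
    cf ψ a e d c b = cf ψ a b c d e := by
  have h1 := blk_rev' h hN hm (by norm_num) a [b, c, d, e] rfl
  have h2 : (-1 : ℚ) ^ (N + 1) = 1 := by
    obtain ⟨k, hk⟩ := hodd
    rw [hk]
    exact Even.neg_one_pow ⟨k + 1, by ring⟩
  rw [h2, one_mul] at h1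
  exact h1

theorem cf_one (h : IsDM ψ) (hN : LenHom ψ N) (hm : ∀ u, co ψ u ≠ 0 → 4 ≤ u.count 0)
    (a p b c d : ℕ) :
    cf ψ a p b c d + cf ψ a b p c d + cf ψ a b c p d + cf ψ a b c d p = 0 := by
  have h1 := one_general h hN hm (by norm_num) a p [b, c, d] rfl
  simp only [shuf] at h1
  unfold cf
  linarith

theorem cf_swap (h : IsDM ψ) (hN : LenHom ψ N) (hodd : Odd N)
    (hm : ∀ u, co ψ u ≠ 0 → 4 ≤ u.count 0) (a b c d e : ℕ) :
    cf ψ a c b d e = - cf ψ a b c d e := by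
  have o1 := cf_one h hN hm a e b d c
  have o2 := cf_one h hN hm a c b d e
  have o3 := cf_one h hN hm a b e d c
  have r1 := cf_rev h hN hodd hm a b c d e
  have r2 := cf_rev h hN hodd hm a c b d e
  linarith

/-- the exchange of two neighbours -/
theorem cf_alt (h : IsDM ψ) (hN : LenHom ψ N) (hodd : Odd N)
    (hm : ∀ u, co ψ u ≠ 0 → 4 ≤ u.count 0) (a b c d e : ℕ) :
    cf ψ b a c d e = - cf ψ a b c d e ∧ cf ψ a c b d e = - cf ψ a b c d e ∧
      cf ψ a b d c e = - cf ψ a b c d e ∧ cf ψ a b c e d = - cf ψ a b c d e := by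
  refine ⟨?_, cf_swap h hN hodd hm a b c d e, ?_, ?_⟩
  · rw [← cf_rot h hN hm b a c d e, ← cf_rot h hN hm a c d e b, ← cf_rot h hN hm c d e b a,
      ← cf_rot h hN hm d e b a c, cf_swap h hN hodd hm e a b c d, cf_rot h hN hm e a b c d]
  · rw [← cf_rot h hN hm a b d c e, cf_swap h hN hodd hm b c d e a, cf_rot h hN hm a b c d e]
  · rw [← cf_rot h hN hm a b c e d, ← cf_rot h hN hm b c e d a, cf_swap h hN hodd hm c d e a b,
      cf_rot h hN hm b c d e a, cf_rot h hN hm a b c d e]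

end Pool.Agent.U691.LL
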