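import Pool.Agent.U691.LL.Prism
import Pool.Agent.U691.LL.Alt

set_option autoImplicit false

/-!
# The generating polynomial of the coefficients
-/

namespace Pool.Agent.U691.LL

open Pool.Agent.H777R4.DM Pool.Agent.R241.DL MvPolynomial

/-- the lengths of the blocks of letters `x₁` -/
def dec : List (Fin 2) → List ℕ
  | [] => [0]
  | i :: w => if i = 0 then 0 :: dec w else
      match dec w with
      | [] => []
      | a :: l => (a + 1) :: l

theorem dec_ne (w : List (Fin 2)) : dec w ≠ [] := by
  induction w with
  | nil => simp [dec]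
  | cons i w ih =>
    obtain ⟨a, l, h⟩ := List.exists_cons_of_ne_nil ih
    unfold dec
    rw [h]
    split_ifs <;> simp

theorem dec_zero (w : List (Fin 2)) : dec (0 :: w) = 0 :: dec w := by simp [dec]

theorem dec_one (w : List (Fin 2)) (a : ℕ) (l : List ℕ) (h : dec w = a :: l) :
    dec (1 :: w) = (a + 1) :: l := by simp [dec, h]

theorem blk_succ (a : ℕ) (l : List ℕ) : blk ((a + 1) :: l) = 1 :: blk (a :: l) := by
  cases l with
  | nil => simp [blk, List.replicate_succ]
  | cons b l => simp [blk, List.replicate_succ]

theorem blk_zero (L : List ℕ) (h : L ≠ []) : blk (0 :: L) = 0 :: blk L := by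
  cases L with
  | nil => exact absurd rfl h
  | cons b l => simp [blk]

theorem blk_dec (w : List (Fin 2)) : blk (dec w) = w := by
  induction w with
  | nil => rfl
  | cons i w ih =>
    have hi : i = 0 ∨ i = 1 := by omega
    rcases hi with rfl | rfl
    · rw [dec_zero, blk_zero _ (dec_ne w), ih]
    · obtain ⟨a, l, h⟩ := List.exists_cons_of_ne_nil (dec_ne w)
      rw [dec_one w a l h, blk_succ, ← h, ih]

theorem dec_blk (L : List ℕ) (h : L ≠ []) : dec (blk L) = L := by
  induction L with
  | nil => exact absurd rfl h
  | cons a L ih =>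
    induction a with
    | zero =>
      by_cases hL : L = []
      · subst hL; rfl
      · rw [blk_zero L hL, dec_zero, ih hL]
    | succ a iha =>
      rw [blk_succ]
      exact dec_one _ a L (iha (by simp))

theorem blk_len (L : List ℕ) (h : L ≠ []) : (blk L).length + 1 = L.sum + L.length := by
  induction L with
  | nil => exact absurd rfl h
  | cons a L ih =>
    cases L with
    | nil => simp [blk]
    | cons b L =>
      have := ih (by simp)
      simp only [blk, List.length_append, List.length_replicate, List.length_cons, List.sum_cons]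
        at this ⊢
      omega

/-- the monomial -/
def pr : List ℕ → List ℚ → ℚ
  | [], [] => 1
  | a :: l, t :: ts => t ^ a * pr l ts
  | _, _ => 0

theorem pr_len (L : List ℕ) : ∀ ts : List ℚ, L.length ≠ ts.length → pr L ts = 0 := by
  induction L with
  | nil => intro ts h; cases ts with
    | nil => exact absurd rfl h
    | cons t ts => rfl
  | cons a L ih => intro ts h; cases ts with
    | nil => rfl
    | cons t ts =>
      rw [pr, ih ts (by simpa using h), mul_zero]

theorem wv_pr (w : List (Fin 2)) : ∀ ts : List ℚ, wv w ts = pr (dec w) ts := by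
  induction w with
  | nil =>
    intro ts
    cases ts with
    | nil => rfl
    | cons t ts => cases ts with
      | nil => simp [wv, dec, pr]
      | cons t' ts => simp [wv, dec, pr]
  | cons i w ih =>
    intro ts
    have hi : i = 0 ∨ i = 1 := by omega
    obtain ⟨a, l, h⟩ := List.exists_cons_of_ne_nil (dec_ne w)
    rcases hi with rfl | rfl
    · rw [dec_zero]
      cases ts with
      | nil => rfl
      | cons t ts => rw [wv_zero, ih, pr, pow_zero, one_mul]
    · rw [dec_one w a l h]
      cases ts with
      | nil => rfl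
      | cons t ts => rw [wv_one, ih, h, pr, pr]; ring

theorem pr_ofFn (k : ℕ) : ∀ (a : Fin k → ℕ) (t : Fin k → ℚ),
    pr (List.ofFn a) (List.ofFn t) = ∏ i, t i ^ a i := by
  induction k with
  | zero => intro a t; simp [pr]
  | succ k ih =>
    intro a t
    rw [List.ofFn_succ, List.ofFn_succ, pr, ih, Fin.prod_univ_succ]

/-- the box -/
def box (N k : ℕ) : Finset (Fin k → ℕ) := Fintype.piFinset (fun _ => Finset.range (N + 1))

theorem word_sum (N k : ℕ) (w : List (Fin 2)) (hw : w.length ≤ N) (t : Fin (k + 1) → ℚ) :
    wv w (List.ofFn t) = ∑ a ∈ box N (k + 1),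
      (if w = blk (List.ofFn a) then 1 else 0) * ∏ i, t i ^ a i := by
  classical
  rw [wv_pr]
  by_cases h : (dec w).length = k + 1
  · obtain ⟨a, ha⟩ : ∃ a : Fin (k + 1) → ℕ, List.ofFn a = dec w :=
      h ▸ ⟨(dec w).get, List.ofFn_get _⟩
    have hw2 : w = blk (List.ofFn a) := by rw [ha, blk_dec]
    have hne : List.ofFn a ≠ [] := by rw [ha]; exact dec_ne w
    have hbox : a ∈ box N (k + 1) := by
      unfold box
      rw [Fintype.mem_piFinset]
      intro i
      rw [Finset.mem_range]
      have h1 := blk_len (List.ofFn a) hne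
      rw [← hw2, List.length_ofFn] at h1
      have h2 : a i ≤ (List.ofFn a).sum := 
        List.single_le_sum (fun _ _ => Nat.zero_le _) _ (List.mem_ofFn.2 ⟨i, rfl⟩)
      omega
    rw [← ha, pr_ofFn, Finset.sum_eq_single a]
    · rw [if_pos hw2, one_mul]
    · intro b _ hb
      rw [if_neg, zero_mul]
      intro h3
      apply hb
      have h4 : dec w = List.ofFn b := by
        rw [h3, dec_blk]
        rw [List.ofFn_succ]
        simp
      rw [← ha] at h4
      exact (List.ofFn_injective h4).symm
    · intro h3
      exact absurd hbox h3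
  · rw [pr_len _ _ (by rw [List.length_ofFn]; exact h)]
    symm
    apply Finset.sum_eq_zero
    intro a _
    rw [if_neg, zero_mul]
    intro h3
    apply h
    rw [h3, dec_blk, List.length_ofFn]
    rw [List.ofFn_succ]
    simp

theorem lext_sum {V : Type} [AddCommGroup V] [Module ℚ V] (F : List (Fin 2) → V) (P : A) :
    lext F P = ∑ m ∈ P.coeff.support, P.coeff m • F (FreeMonoid.toList m) := by
  unfold lext
  rw [LinearMap.comp_apply]
  rfl

theorem co_sum (P : A) (l : List (Fin 2)) :
    co P l = ∑ m ∈ P.coeff.support, P.coeff m * (if FreeMonoid.toList m = l then 1 else 0) := by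
  classical
  unfold co
  rw [Finset.sum_eq_single (FreeMonoid.ofList l)]
  · simp
  · intro b _ hb
    rw [if_neg, mul_zero]
    intro h
    apply hb
    rw [← h]
    rfl
  · intro h
    rw [Finsupp.notMem_support_iff.1 h, zero_mul]

/-- the generating polynomial of the coefficients of the words with `k` letters `x₀` -/
noncomputable def gen (ψ : A) (N k : ℕ) : MvPolynomial (Fin (k + 1)) ℚ :=
  ∑ a ∈ box N (k + 1), monomial (Finsupp.equivFunOnFinite.symm a) (co ψ (blk (List.ofFn a)))

theorem eval_gen (ψ : A) (N k : ℕ) (t : Fin (k + 1) → ℚ) :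
    eval t (gen ψ N k) = ∑ a ∈ box N (k + 1), co ψ (blk (List.ofFn a)) * ∏ i, t i ^ a i := by
  unfold gen
  rw [map_sum]
  refine Finset.sum_congr rfl fun a _ => ?_
  rw [eval_monomial, Finsupp.prod_fintype _ _ (fun i => pow_zero _)]
  rfl

theorem wvl_gen {ψ : A} {N : ℕ} (hN : LenHom ψ N) (k : ℕ) (t : Fin (k + 1) → ℚ) :
    wvl (List.ofFn t) ψ = eval t (gen ψ N k) := by
  classical
  rw [eval_gen]
  unfold wvl
  rw [lext_sum]
  simp only [co_sum ψ, Finset.sum_mul]
  rw [Finset.sum_comm]
  refine Finset.sum_congr rfl fun m hm => ?_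
  have hl : (FreeMonoid.toList m).length ≤ N := by
    apply le_of_eq
    apply hN
    exact Finsupp.mem_support_iff.1 hm
  rw [word_sum N k _ hl t, smul_eq_mul, Finset.mul_sum]
  refine Finset.sum_congr rfl fun a _ => ?_
  ring

theorem gen_coeff {ψ : A} {N k : ℕ} (h : gen ψ N k = 0) (a : Fin (k + 1) → ℕ)
    (ha : a ∈ box N (k + 1)) : co ψ (blk (List.ofFn a)) = 0 := by
  classical
  have h1 := congrArg (coeff (Finsupp.equivFunOnFinite.symm a)) h
  unfold gen at h1
  rw [coeff_sum, coeff_zero, Finset.sum_eq_single a] at h1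
  · rwa [coeff_monomial, if_pos rfl] at h1
  · intro b _ hb
    rw [coeff_monomial, if_neg]
    intro h2
    exact hb (Finsupp.equivFunOnFinite.symm.injective h2)
  · intro h2
    exact absurd ha h2

end Pool.Agent.U691.LL
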