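import Pool.Agent.U691.LL.Rep

set_option autoImplicit false

/-!
# The relation between the values of a Lie polynomial at five points
-/

namespace Pool.Agent.U691.LL

open Pool.Agent.H777R4.DM Matrix
open scoped Kronecker

/-- steps in the first direction -/
def M2 : Matrix (Fin 2) (Fin 2) ℚ := !![0, 1; 0, 0]

/-- steps in the second direction -/
def M4 : Matrix (Fin 4) (Fin 4) ℚ := !![0, 1, 0, 0; 0, 0, 1, 0; 0, 0, 0, 1; 0, 0, 0, 0]

/-- the tensor product of the two representations -/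
noncomputable def gr (δ p q r s : ℚ) (i : Fin 2) : Matrix (Fin 2 × Fin 4) (Fin 2 × Fin 4) ℚ :=
  if i = 0 then M2 ⊗ₖ (1 : Matrix (Fin 4) (Fin 4) ℚ) + (1 : Matrix (Fin 2) (Fin 2) ℚ) ⊗ₖ M4
  else Matrix.diagonal ![δ, 0] ⊗ₖ (1 : Matrix (Fin 4) (Fin 4) ℚ) +
    (1 : Matrix (Fin 2) (Fin 2) ℚ) ⊗ₖ Matrix.diagonal ![p, q, r, s]

/-- the product of the matrices of the letters -/
noncomputable def gp (δ p q r s : ℚ) : List (Fin 2) → Matrix (Fin 2 × Fin 4) (Fin 2 × Fin 4) ℚ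
  | [] => 1
  | i :: w => gr δ p q r s i * gp δ p q r s w

theorem gp_zero (δ p q r s : ℚ) (w : List (Fin 2)) (e : Fin 2 × Fin 4) :
    gp δ p q r s (0 :: w) (0, 0) e = gp δ p q r s w (1, 0) e + gp δ p q r s w (0, 1) e ∧
    gp δ p q r s (0 :: w) (0, 1) e = gp δ p q r s w (1, 1) e + gp δ p q r s w (0, 2) e ∧
    gp δ p q r s (0 :: w) (0, 2) e = gp δ p q r s w (1, 2) e + gp δ p q r s w (0, 3) e ∧
    gp δ p q r s (0 :: w) (0, 3) e = gp δ p q r s w (1, 3) e ∧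
    gp δ p q r s (0 :: w) (1, 0) e = gp δ p q r s w (1, 1) e ∧
    gp δ p q r s (0 :: w) (1, 1) e = gp δ p q r s w (1, 2) e ∧
    gp δ p q r s (0 :: w) (1, 2) e = gp δ p q r s w (1, 3) e ∧
    gp δ p q r s (0 :: w) (1, 3) e = 0 := by
  simp only [gp, gr, if_true, Matrix.mul_apply, Fintype.sum_prod_type, Fin.sum_univ_two,
    Fin.sum_univ_four, Matrix.add_apply, Matrix.kroneckerMap_apply, M2, M4, Matrix.one_apply]
  simp [add_comm]

theorem gp_one (δ p q r s : ℚ) (w : List (Fin 2)) (e : Fin 2 × Fin 4) :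
    gp δ p q r s (1 :: w) (0, 0) e = (p + δ) * gp δ p q r s w (0, 0) e ∧
    gp δ p q r s (1 :: w) (0, 1) e = (q + δ) * gp δ p q r s w (0, 1) e ∧
    gp δ p q r s (1 :: w) (0, 2) e = (r + δ) * gp δ p q r s w (0, 2) e ∧
    gp δ p q r s (1 :: w) (0, 3) e = (s + δ) * gp δ p q r s w (0, 3) e ∧
    gp δ p q r s (1 :: w) (1, 0) e = p * gp δ p q r s w (1, 0) e ∧
    gp δ p q r s (1 :: w) (1, 1) e = q * gp δ p q r s w (1, 1) e ∧
    gp δ p q r s (1 :: w) (1, 2) e = r * gp δ p q r s w (1, 2) e ∧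
    gp δ p q r s (1 :: w) (1, 3) e = s * gp δ p q r s w (1, 3) e := by
  simp only [gp, gr, if_neg (show ¬ (1 : Fin 2) = 0 by decide), Matrix.mul_apply,
    Fintype.sum_prod_type, Fin.sum_univ_two,
    Fin.sum_univ_four, Matrix.add_apply, Matrix.kroneckerMap_apply, Matrix.one_apply,
    Matrix.diagonal_apply]
  simp [add_comm]

theorem wv_zero (t : ℚ) (ts : List ℚ) (w : List (Fin 2)) : wv (0 :: w) (t :: ts) = wv w ts := by
  simp [wv]

theorem wv_one (t : ℚ) (ts : List ℚ) (w : List (Fin 2)) :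
    wv (1 :: w) (t :: ts) = t * wv w (t :: ts) := by
  simp [wv]

theorem wv_empty (w : List (Fin 2)) : wv w [] = 0 := by
  cases w <;> rfl

/-- the entries, as sums over paths -/
theorem gp_paths (δ p q r s : ℚ) (w : List (Fin 2)) :
    gp δ p q r s w (1, 3) (1, 3) = wv w [s] ∧
    gp δ p q r s w (1, 2) (1, 3) = wv w [r, s] ∧
    gp δ p q r s w (1, 1) (1, 3) = wv w [q, r, s] ∧
    gp δ p q r s w (1, 0) (1, 3) = wv w [p, q, r, s] ∧
    gp δ p q r s w (0, 3) (1, 3) = wv w [s + δ, s] ∧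
    gp δ p q r s w (0, 2) (1, 3) = wv w [r + δ, r, s] + wv w [r + δ, s + δ, s] ∧
    gp δ p q r s w (0, 1) (1, 3) = wv w [q + δ, q, r, s] + wv w [q + δ, r + δ, r, s] +
      wv w [q + δ, r + δ, s + δ, s] ∧
    gp δ p q r s w (0, 0) (1, 3) = wv w [p + δ, p, q, r, s] + wv w [p + δ, q + δ, q, r, s] +
      wv w [p + δ, q + δ, r + δ, r, s] + wv w [p + δ, q + δ, r + δ, s + δ, s] := by
  induction w with
  | nil => simp [gp, wv]
  | cons i w ih =>
    obtain ⟨h1, h2, h3, h4, h5, h6, h7, h8⟩ := ih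
    have hi : i = 0 ∨ i = 1 := by omega
    rcases hi with rfl | rfl
    · obtain ⟨g1, g2, g3, g4, g5, g6, g7, g8⟩ := gp_zero δ p q r s w (1, 3)
      rw [g1, g2, g3, g4, g5, g6, g7, g8, h1, h2, h3, h4, h5, h6, h7]
      simp only [wv_zero, wv_empty, true_and]
      refine ⟨?_, ?_⟩ <;> ring
    · obtain ⟨g1, g2, g3, g4, g5, g6, g7, g8⟩ := gp_one δ p q r s w (1, 3)
      rw [g1, g2, g3, g4, g5, g6, g7, g8, h1, h2, h3, h4, h5, h6, h7, h8]
      simp only [wv_one, true_and]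
      refine ⟨?_, ?_, ?_⟩ <;> ring

theorem rep_gp (δ p q r s : ℚ) (w : List (Fin 2)) :
    rep (M2 ⊗ₖ (1 : Matrix (Fin 4) (Fin 4) ℚ) + (1 : Matrix (Fin 2) (Fin 2) ℚ) ⊗ₖ M4)
      (Matrix.diagonal ![δ, 0] ⊗ₖ (1 : Matrix (Fin 4) (Fin 4) ℚ) +
        (1 : Matrix (Fin 2) (Fin 2) ℚ) ⊗ₖ Matrix.diagonal ![p, q, r, s]) (wd w) =
      gp δ p q r s w := by
  induction w with
  | nil => rw [rep_nil]; rfl
  | cons i w ih => rw [rep_cons, ih]; rfl

/-- the relation for Lie polynomials -/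
theorem prism {ψ : A} (h : ψ ∈ LieX) (δ p q r s : ℚ) :
    wvl [p + δ, p, q, r, s] ψ + wvl [p + δ, q + δ, q, r, s] ψ +
      wvl [p + δ, q + δ, r + δ, r, s] ψ + wvl [p + δ, q + δ, r + δ, s + δ, s] ψ = 0 := by
  let Q : A →ₐ[ℚ] Matrix (Fin 2 × Fin 4) (Fin 2 × Fin 4) ℚ :=
    rep (M2 ⊗ₖ (1 : Matrix (Fin 4) (Fin 4) ℚ) + (1 : Matrix (Fin 2) (Fin 2) ℚ) ⊗ₖ M4)
      (Matrix.diagonal ![δ, 0] ⊗ₖ (1 : Matrix (Fin 4) (Fin 4) ℚ) +
        (1 : Matrix (Fin 2) (Fin 2) ℚ) ⊗ₖ Matrix.diagonal ![p, q, r, s])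
  let E : A →ₗ[ℚ] ℚ := (Matrix.entryLinearMap ℚ ℚ (0, 0) (1, 3)) ∘ₗ Q.toLinearMap
  have h1 : E = wvl [p + δ, p, q, r, s] + wvl [p + δ, q + δ, q, r, s] +
      wvl [p + δ, q + δ, r + δ, r, s] + wvl [p + δ, q + δ, r + δ, s + δ, s] := by
    apply lin_ext
    intro w
    have h2 : E (wd w) = gp δ p q r s w (0, 0) (1, 3) := by
      show Q (wd w) (0, 0) (1, 3) = _
      rw [show Q (wd w) = gp δ p q r s w from rep_gp δ p q r s w]
    rw [h2, (gp_paths δ p q r s w).2.2.2.2.2.2.2]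
    simp only [LinearMap.add_apply, wvl_wd]
  have h3 : E ψ = 0 := by
    show Q ψ (0, 0) (1, 3) = 0
    rw [show Q ψ = _ from rep_kron M2 (Matrix.diagonal ![δ, 0]) M4
      (Matrix.diagonal ![p, q, r, s]) h]
    simp [Matrix.kroneckerMap_apply]
  rw [h1] at h3
  simpa only [LinearMap.add_apply] using h3

end Pool.Agent.U691.LL
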