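import Pool.Agent.H777R4.DM.Basic

set_option autoImplicit false

/-!
# A consequence of the primitivity of Lie polynomials

For a word with `m` letters `x₀` let `wv w [t₀, …, t_m]` be the monomial `t₀^{a₀} ⋯ t_m^{a_m}`,
where `a_i` are the lengths of the blocks of letters `x₁`.
-/

namespace Pool.Agent.U691.LL

open Pool.Agent.H777R4.DM Matrix
open scoped Kronecker

attribute [local instance 100] LieRing.ofAssociativeRing

/-- the value of a word at a list of points -/
def wv : List (Fin 2) → List ℚ → ℚ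
  | [], [_] => 1
  | [], _ => 0
  | _ :: _, [] => 0
  | i :: w, t :: ts => if i = 0 then wv w ts else t * wv w (t :: ts)

/-- the linear extension -/
noncomputable def wvl (ts : List ℚ) : A →ₗ[ℚ] ℚ := lext (fun w => wv w ts)

theorem wvl_wd (ts : List ℚ) (w : List (Fin 2)) : wvl ts (wd w) = wv w ts := lext_wd _ _

section rep

variable {ι : Type} [Fintype ι] [DecidableEq ι]

/-- the representation with `x₀ ↦ M`, `x₁ ↦ D` -/
noncomputable def rep (M D : Matrix ι ι ℚ) : A →ₐ[ℚ] Matrix ι ι ℚ :=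
  MonoidAlgebra.lift ℚ (Matrix ι ι ℚ) (FreeMonoid (Fin 2))
    (FreeMonoid.lift (fun i => if i = 0 then M else D))

theorem rep_wd (M D : Matrix ι ι ℚ) (w : List (Fin 2)) :
    rep M D (wd w) = (w.map (fun i => if i = 0 then M else D)).prod := by
  unfold rep wd
  rw [MonoidAlgebra.of_apply, MonoidAlgebra.lift_single, one_smul, FreeMonoid.lift_apply]
  rfl

theorem rep_nil (M D : Matrix ι ι ℚ) : rep M D (wd []) = 1 := by
  rw [rep_wd]; rfl

theorem rep_cons (M D : Matrix ι ι ℚ) (i : Fin 2) (w : List (Fin 2)) :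
    rep M D (wd (i :: w)) = (if i = 0 then M else D) * rep M D (wd w) := by
  rw [rep_wd, rep_wd, List.map_cons, List.prod_cons]

theorem rep_x (M D : Matrix ι ι ℚ) (i : Fin 2) : rep M D (x i) = if i = 0 then M else D := by
  unfold x
  rw [rep_wd]
  simp

end rep

variable {ι κ : Type} [Fintype ι] [DecidableEq ι] [Fintype κ] [DecidableEq κ]

/-- Lie polynomials act on a tensor product as on a tensor product of representations. -/
theorem rep_kron (M D : Matrix ι ι ℚ) (M' D' : Matrix κ κ ℚ) {ψ : A} (h : ψ ∈ LieX) :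
    rep (M ⊗ₖ (1 : Matrix κ κ ℚ) + (1 : Matrix ι ι ℚ) ⊗ₖ M')
      (D ⊗ₖ (1 : Matrix κ κ ℚ) + (1 : Matrix ι ι ℚ) ⊗ₖ D') ψ =
      rep M D ψ ⊗ₖ (1 : Matrix κ κ ℚ) + (1 : Matrix ι ι ℚ) ⊗ₖ rep M' D' ψ := by
  unfold LieX at h
  induction h using LieSubalgebra.lieSpan_induction with
  | mem y hy =>
    have h3 : ∃ i, y = x i := by
      rcases hy with rfl | hy
      · exact ⟨0, rfl⟩
      · exact ⟨1, hy⟩
    obtain ⟨i, rfl⟩ := h3
    rw [rep_x, rep_x, rep_x]
    split_ifs <;> rfl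
  | zero => simp
  | smul a y _ ih =>
    rw [map_smul, ih, map_smul, map_smul, smul_add, Matrix.smul_kronecker, Matrix.kronecker_smul]
  | add y z _ _ ihy ihz =>
    rw [map_add, ihy, ihz, map_add, map_add, Matrix.add_kronecker, Matrix.kronecker_add]
    abel
  | lie y z _ _ ihy ihz =>
    have e : ∀ (a b : Matrix ι ι ℚ) (a' b' : Matrix κ κ ℚ),
        (a ⊗ₖ a') * (b ⊗ₖ b') = (a * b) ⊗ₖ (a' * b') := fun a b a' b' =>
      (Matrix.mul_kronecker_mul a b a' b').symm
    have hl : ⁅y, z⁆ = y * z - z * y := rfl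
    have s1 : ∀ (a b : Matrix ι ι ℚ) (c : Matrix κ κ ℚ), (a - b) ⊗ₖ c = a ⊗ₖ c - b ⊗ₖ c := by
      intro a b c
      ext i j
      simp [sub_mul]
    have s2 : ∀ (c : Matrix ι ι ℚ) (a b : Matrix κ κ ℚ), c ⊗ₖ (a - b) = c ⊗ₖ a - c ⊗ₖ b := by
      intro c a b
      ext i j
      simp [mul_sub]
    rw [hl]
    simp only [map_sub, map_mul, ihy, ihz, add_mul, mul_add, e, one_mul, mul_one, s1, s2]
    abel

end Pool.Agent.U691.LL
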