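import Pool.Agent.U691.LL.Van

set_option autoImplicit false

/-!
# The layer with four letters `x₀` in odd weight
-/

namespace Pool.Agent.U691.LL

open Pool.Agent.H777R4.DM Pool.Agent.R241.DL MvPolynomial

theorem eval_swap (ψ : A) (N k : ℕ) (σ : Equiv.Perm (Fin (k + 1)))
    (h : ∀ a : Fin (k + 1) → ℕ, co ψ (blk (List.ofFn (a ∘ σ))) = - co ψ (blk (List.ofFn a)))
    (t : Fin (k + 1) → ℚ) : eval (t ∘ σ) (gen ψ N k) = - eval t (gen ψ N k) := by
  rw [eval_gen, eval_gen, ← Finset.sum_neg_distrib]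
  refine Finset.sum_nbij' (fun a => a ∘ σ.symm) (fun a => a ∘ σ) ?_ ?_ ?_ ?_ ?_
  · intro a ha
    unfold box at ha ⊢
    rw [Fintype.mem_piFinset] at ha ⊢
    intro i
    exact ha _
  · intro a ha
    unfold box at ha ⊢
    rw [Fintype.mem_piFinset] at ha ⊢
    intro i
    exact ha _
  · intro a _
    funext i
    simp
  · intro a _
    funext i
    simp
  · intro a _
    have h1 := h (a ∘ σ.symm)
    have h2 : (a ∘ σ.symm) ∘ σ = a := by
      funext i
      simp
    rw [h2] at h1
    rw [h1, neg_mul]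
    congr 2
    rw [← Equiv.prod_comp σ (fun i => t i ^ (a ∘ σ.symm) i)]
    refine Finset.prod_congr rfl fun i _ => ?_
    simp

theorem ofFn_five (a : Fin 5 → ℕ) : List.ofFn a = [a 0, a 1, a 2, a 3, a 4] := by
  simp [List.ofFn_succ]

theorem ofFn_fiveQ (x y z u v : ℚ) : List.ofFn ![x, y, z, u, v] = [x, y, z, u, v] := by
  simp [List.ofFn_succ]

variable {ψ : A} {N : ℕ}

theorem pri_gen (h : IsDM ψ) (hN : LenHom ψ N) (hodd : Odd N)
    (hm : ∀ u, co ψ u ≠ 0 → 4 ≤ u.count 0) : Pri (gen ψ N 4) := by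
  have alt := fun a b c d e => cf_alt h hN hodd hm a b c d e
  unfold cf at alt
  refine ⟨?_, ?_, ?_, ?_⟩
  · intro x y z u v
    have h1 := eval_swap ψ N 4 (Equiv.swap 0 1) (by
      intro a
      rw [ofFn_five, ofFn_five]
      exact (alt (a 0) (a 1) (a 2) (a 3) (a 4)).1) ![x, y, z, u, v]
    unfold F
    rw [← h1]
    congr 2
    funext i
    fin_cases i <;> rfl
  · intro x y z u v
    have h1 := eval_swap ψ N 4 (Equiv.swap 1 2) (by
      intro a
      rw [ofFn_five, ofFn_five]
      exact (alt (a 0) (a 1) (a 2) (a 3) (a 4)).2.1) ![x, y, z, u, v]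
    unfold F
    rw [← h1]
    congr 2
    funext i
    fin_cases i <;> rfl
  · intro x y z u v
    have h1 := eval_swap ψ N 4 (Equiv.swap 2 3) (by
      intro a
      rw [ofFn_five, ofFn_five]
      exact (alt (a 0) (a 1) (a 2) (a 3) (a 4)).2.2.1) ![x, y, z, u, v]
    unfold F
    rw [← h1]
    congr 2
    funext i
    fin_cases i <;> rfl
  · intro d p q r s
    have h1 := prism h.mem d p q r s
    rw [← ofFn_fiveQ, ← ofFn_fiveQ, ← ofFn_fiveQ, ← ofFn_fiveQ] at h1
    rw [wvl_gen hN 4, wvl_gen hN 4, wvl_gen hN 4, wvl_gen hN 4] at h1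
    exact h1

theorem blk_count (L : List ℕ) (h : L ≠ []) : (blk L).count 0 + 1 = L.length := by
  induction L with
  | nil => exact absurd rfl h
  | cons a L ih =>
    cases L with
    | nil => simp [blk, List.count_replicate]
    | cons b L =>
      have := ih (by simp)
      simp only [blk, List.count_append, List.count_replicate, List.length_cons,
        List.count_cons_self] at this ⊢
      simp
      omega

/-- the words with four letters `x₀` -/
theorem four_zero (h : IsDM ψ) (hN : LenHom ψ N) (hodd : Odd N)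
    (hm : ∀ u, co ψ u ≠ 0 → 4 ≤ u.count 0) (w : List (Fin 2)) (hw : w.count 0 = 4) :
    co ψ w = 0 := by
  by_contra hne
  apply hne
  have hz := (pri_gen h hN hodd hm).zero
  have hd := dec_ne w
  have hl := blk_count (dec w) hd
  rw [blk_dec, hw] at hl
  obtain ⟨a, ha⟩ : ∃ a : Fin 5 → ℕ, List.ofFn a = dec w :=
    (show (dec w).length = 5 by omega) ▸ ⟨(dec w).get, List.ofFn_get _⟩
  have h2 : w = blk (List.ofFn a) := by rw [ha, blk_dec]
  rw [h2]
  apply gen_coeff hz
  unfold box
  rw [Fintype.mem_piFinset]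
  intro i
  rw [Finset.mem_range]
  have h3 := blk_len (List.ofFn a) (by rw [ha]; exact hd)
  rw [← h2, List.length_ofFn, hN w hne] at h3
  have h4 : a i ≤ (List.ofFn a).sum :=
    List.single_le_sum (fun _ _ => Nat.zero_le _) _ (List.mem_ofFn.2 ⟨i, rfl⟩)
  omega

end Pool.Agent.U691.LL
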