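import Pool.Agent.U691.LL.Ev

set_option autoImplicit false

/-!
# A polynomial in five variables, antisymmetric and with the relation `prism`, is zero
-/

namespace Pool.Agent.U691.LL

open MvPolynomial

/-- a polynomial on a line -/
theorem eval_line (p : MvPolynomial (Fin 5) ℚ) (g : Fin 5 → Polynomial ℚ) (x : ℚ) :
    Polynomial.eval x (aeval g p) = eval (fun i => Polynomial.eval x (g i)) p := by
  have h : (Polynomial.aeval x).comp (aeval g : MvPolynomial (Fin 5) ℚ →ₐ[ℚ] Polynomial ℚ) =
      aeval (fun i => Polynomial.eval x (g i)) := by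
    apply MvPolynomial.algHom_ext
    intro i
    simp
  have h2 := congrArg (fun f => f p) h
  simp only [AlgHom.comp_apply] at h2
  rw [← Polynomial.coe_aeval_eq_eval]
  exact h2

/-- a polynomial which vanishes along an arithmetic progression -/
theorem zero_of_progression (Q : Polynomial ℚ) (u δ : ℚ) (hδ : δ ≠ 0)
    (h : ∀ k : ℕ, Q.eval (u + k * δ) = 0) : Q = 0 := by
  apply Polynomial.eq_zero_of_infinite_isRoot
  apply Set.infinite_of_injective_forall_mem (f := fun k : ℕ => u + k * δ)
  · intro a b hab
    have h1 : (a : ℚ) * δ = b * δ := add_left_cancel hab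
    exact_mod_cast mul_right_cancel₀ hδ h1
  · intro k
    exact h k

section

variable (p : MvPolynomial (Fin 5) ℚ)

/-- the values -/
noncomputable def F (x y z u v : ℚ) : ℚ := eval ![x, y, z, u, v] p

/-- antisymmetry and the relation -/
structure Pri : Prop where
  s1 : ∀ x y z u v, F p y x z u v = - F p x y z u v
  s2 : ∀ x y z u v, F p x z y u v = - F p x y z u v
  s3 : ∀ x y z u v, F p x y u z v = - F p x y z u v
  pr : ∀ d p1 q r s, F p (p1 + d) p1 q r s + F p (p1 + d) (q + d) q r s +
    F p (p1 + d) (q + d) (r + d) r s + F p (p1 + d) (q + d) (r + d) (s + d) s = 0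

variable {p}

theorem Pri.eq1 (h : Pri p) (x z u v : ℚ) : F p x x z u v = 0 := by
  have := h.s1 x x z u v
  linarith

theorem Pri.eq2 (h : Pri p) (x y u v : ℚ) : F p x y y u v = 0 := by
  have := h.s2 x y y u v
  linarith

theorem Pri.eq3 (h : Pri p) (x y z v : ℚ) : F p x y z x v = 0 := by
  have h1 := h.s3 x y z x v
  have h2 := h.s2 x y x z v
  have h3 := h.eq1 x y z v
  linarith

/-- reversal of the first three arguments -/
theorem Pri.rev (h : Pri p) (x y z u v : ℚ) : F p z y x u v = - F p x y z u v := by
  have h1 := h.s1 y z x u v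
  have h2 := h.s2 y x z u v
  have h3 := h.s1 x y z u v
  linarith

/-- rotation of the first three arguments -/
theorem Pri.rot (h : Pri p) (x y z u v : ℚ) : F p z x y u v = F p x y z u v := by
  have h1 := h.s1 x z y u v
  have h2 := h.s2 x y z u v
  linarith

theorem Pri.sq (h : Pri p) (d x y u v : ℚ) :
    F p (x + d) x y u v + F p (x + d) (y + d) y u v + F p (y + d) y x u v +
      F p (y + d) (x + d) x u v = 0 := by
  have h1 := h.pr d x y u v
  have h2 := h.pr d y x u v
  have h3 := h.s1 (x + d) (y + d) (u + d) u v
  have h4 := h.s1 (x + d) (y + d) (u + d) (v + d) v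
  linarith

/-- periodic functions which vanish somewhere -/
theorem Pri.per (h : Pri p) (n d u v : ℚ)
    (hp : ∀ x, F p (x + d) (x + d + d) (x + d + n * d) u v = F p x (x + d) (x + n * d) u v)
    (x : ℚ) : F p x (x + d) (x + n * d) u v = 0 := by
  by_cases hd : d = 0
  · subst hd
    rw [add_zero]
    exact h.eq1 _ _ _ _
  · let Q : Polynomial ℚ := aeval ![Polynomial.X, Polynomial.X + Polynomial.C d,
      Polynomial.X + Polynomial.C (n * d), Polynomial.C u, Polynomial.C v] p
    have hQ : ∀ x, Q.eval x = F p x (x + d) (x + n * d) u v := by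
      intro x
      show Polynomial.eval x (aeval _ p) = _
      rw [eval_line]
      have e : (fun i => Polynomial.eval x ((![Polynomial.X, Polynomial.X + Polynomial.C d,
          Polynomial.X + Polynomial.C (n * d), Polynomial.C u, Polynomial.C v] :
            Fin 5 → Polynomial ℚ) i)) = ![x, x + d, x + n * d, u, v] := by
        funext i
        fin_cases i <;> simp
      rw [e]
      rfl
    have h0 : Q = 0 := by
      apply zero_of_progression Q u d hd
      intro k
      rw [hQ]
      induction k with
      | zero =>
        rw [Nat.cast_zero, zero_mul, add_zero]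
        exact h.eq3 _ _ _ _
      | succ k ih =>
        have e : u + ((k + 1 : ℕ) : ℚ) * d = u + k * d + d := by push_cast; ring
        rw [e, hp, ih]
    rw [← hQ, h0, Polynomial.eval_zero]

theorem Pri.prog (h : Pri p) (m : ℕ) : ∀ d x u v : ℚ,
    F p x (x + d) (x + (m + 1) * d) u v = 0 ∧ F p x (x + m * d) (x + (m + 1) * d) u v = 0 := by
  induction m with
  | zero =>
    intro d x u v
    refine ⟨?_, ?_⟩
    · rw [Nat.cast_zero, zero_add, one_mul]
      exact h.eq2 _ _ _ _
    · rw [Nat.cast_zero, zero_mul, add_zero]
      exact h.eq1 _ _ _ _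
  | succ m ih =>
    have i1 : ∀ d x u v : ℚ, F p x (x + d) (x + (m + 2) * d) u v +
        F p x (x + (m + 1) * d) (x + (m + 2) * d) u v = 0 := by
      intro d x u v
      have h1 := h.sq d x (x + (m + 1) * d) u v
      have e1 : x + (m + 1) * d + d = x + (m + 2) * d := by ring
      rw [e1] at h1
      have h2 := (ih d x u v).1
      have h3 := (ih d (x + d) u v).2
      have e2 : x + d + m * d = x + (m + 1) * d := by ring
      have e3 : x + d + (m + 1) * d = x + (m + 2) * d := by ring
      rw [e2, e3] at h3
      have h4 := h.s1 x (x + d) (x + (m + 1) * d) u v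
      have h5 := h.s2 (x + d) (x + (m + 1) * d) (x + (m + 2) * d) u v
      have h6 := h.rev x (x + (m + 1) * d) (x + (m + 2) * d) u v
      have h7 := h.rev x (x + d) (x + (m + 2) * d) u v
      linarith
    have i2 : ∀ d u v x : ℚ, F p (x + d) (x + d + d) (x + d + (m + 2) * d) u v =
        F p x (x + d) (x + (m + 2) * d) u v := by
      intro d u v x
      have h1 := h.sq d x (x + (m + 2) * d) u v
      have h2 := h.sq ((m + 2) * d) x (x + d) u v
      have e1 : x + (m + 2) * d + d = x + d + (m + 2) * d := by ring
      rw [e1] at h1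
      have h3 := i1 d (x + d) u v
      have e2 : x + d + (m + 1) * d = x + (m + 2) * d := by ring
      rw [e2] at h3
      -- a = x, b = x + d, c = x + (m + 2) d, e = x + d + (m + 2) d
      have a1 := h.s1 x (x + d) (x + (m + 2) * d) u v
      have a2 := h.s2 (x + d) (x + (m + 2) * d) (x + d + (m + 2) * d) u v
      have a3 := h.rot x (x + d) (x + (m + 2) * d) u v
      have a4 := h.rot (x + d) (x + (m + 2) * d) (x + d + (m + 2) * d) u v
      have a5 := h.rot (x + (m + 2) * d) (x + d + (m + 2) * d) (x + d) u v
      linarith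
    intro d x u v
    have i3 := h.per (m + 2) d u v (i2 d u v) x
    have i4 := i1 d x u v
    have e1 : (((m + 1 : ℕ) : ℚ) + 1) = (m : ℚ) + 2 := by push_cast; ring
    have e2 : ((m + 1 : ℕ) : ℚ) = (m : ℚ) + 1 := by push_cast; ring
    rw [e1, e2]
    refine ⟨i3, ?_⟩
    linarith

theorem Pri.zero (h : Pri p) : p = 0 := by
  have key : ∀ x y z u v, F p x y z u v = 0 := by
    intro x y z u v
    by_cases hd : y = x
    · subst hd
      exact h.eq1 _ _ _ _
    · let R : Polynomial ℚ := aeval ![Polynomial.C x, Polynomial.C y, Polynomial.X,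
        Polynomial.C u, Polynomial.C v] p
      have hR : ∀ z, R.eval z = F p x y z u v := by
        intro z
        show Polynomial.eval z (aeval _ p) = _
        rw [eval_line]
        have e : (fun i => Polynomial.eval z ((![Polynomial.C x, Polynomial.C y, Polynomial.X,
            Polynomial.C u, Polynomial.C v] : Fin 5 → Polynomial ℚ) i)) = ![x, y, z, u, v] := by
          funext i
          fin_cases i <;> simp
        rw [e]
        rfl
      have h0 : R = 0 := by
        apply zero_of_progression R y (y - x) (sub_ne_zero.2 hd)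
        intro k
        rw [hR]
        have h1 := (h.prog k (y - x) x u v).1
        have e1 : x + (y - x) = y := by ring
        have e2 : x + ((k : ℚ) + 1) * (y - x) = y + k * (y - x) := by ring
        rwa [e1, e2] at h1
      rw [← hR, h0, Polynomial.eval_zero]
  apply MvPolynomial.funext
  intro t
  rw [map_zero]
  have ht : t = ![t 0, t 1, t 2, t 3, t 4] := by
    funext i
    fin_cases i <;> rfl
  rw [ht]
  exact key _ _ _ _ _

end

end Pool.Agent.U691.LL
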